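import Pool.Agent.R343.HalfSum
import Pool.Agent.R343.CFP3
import Pool.Agent.H38R2.CG.PV

set_option autoImplicit false

namespace Pool.Agent.Results.MP_7c82b6_nt.RatioTendsToOne

/-- the value of the finite continued fraction `[c₁, c₂, …]` -/
def cfVal : List ℕ → ℚ
  | [] => 0
  | [c] => c
  | c :: d :: l => c + 1 / cfVal (d :: l)

/-- `l` is an expansion of `p / n` with positive partial quotients, the last one being `> 1` -/
def IsExp (p n : ℕ) (l : List ℕ) : Prop :=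
  (∀ c ∈ l, 0 < c) ∧ (∃ c ∈ l.getLast?, 1 < c) ∧ cfVal l = (p : ℚ) / n

/-- `M_p` -/
def M (p : ℕ) : Set ℕ :=
  {n | 0 < n ∧ n < p ∧ ∃ l, IsExp p n l ∧ jacobiSym (n : ℤ) p = (-1) ^ l.length}

/-- `M_p` with a bar -/
def Mbar (p : ℕ) : Set ℕ :=
  {n | 0 < n ∧ n < p ∧ ∃ l, IsExp p n l ∧ jacobiSym (n : ℤ) p = (-1) ^ (l.length + 1)}

/-- `N(p)` -/
noncomputable def N (p : ℕ) : ℕ := (M p).ncard

/-- `N(p)` with a bar -/
noncomputable def Nbar (p : ℕ) : ℕ := (Mbar p).ncard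

open Pool.Agent.R343

theorem cfVal_eq : ∀ l : List ℕ, cfVal l = CFP.cfVal l
  | [] => rfl
  | [_] => rfl
  | c :: d :: l => by
    rw [cfVal, CFP.cfVal, cfVal_eq (d :: l)]

theorem isExp_eq (p n : ℕ) (l : List ℕ) : IsExp p n l ↔ CFP.IsExp p n l := by
  unfold IsExp CFP.IsExp
  rw [cfVal_eq]

theorem N_eq (p : ℕ) : N p = (CFP.MM p 0).ncard := by
  unfold N M CFP.MM
  simp only [isExp_eq, add_zero]

theorem Nbar_eq (p : ℕ) : Nbar p = (CFP.MM p 1).ncard := by
  unfold Nbar Mbar CFP.MM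
  simp only [isExp_eq]

theorem prod_le_card (S : Finset ℕ) : (∀ p ∈ S, 2 ≤ p) →
    ∏ p ∈ S, p ≤ (S.card + 1) * ∏ p ∈ S, (p - 1) := by
  induction S using Finset.induction_on_max with
  | empty => simp
  | insert m s hm ih =>
    intro h
    have hms : m ∉ s := fun hcon => lt_irrefl _ (hm m hcon)
    have h1 := ih fun p hp => h p (Finset.mem_insert_of_mem hp)
    have hcard : s.card + 1 ≤ m - 1 := by
      have h2 : s ⊆ Finset.Ico 2 m := fun x hx =>
        Finset.mem_Ico.2 ⟨h x (Finset.mem_insert_of_mem hx), hm x hx⟩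
      have h3 := Finset.card_le_card h2
      rw [Nat.card_Ico] at h3
      have h4 := h m (Finset.mem_insert_self _ _)
      omega
    obtain ⟨k, hk⟩ : ∃ k, m = k + 1 := ⟨m - 1, by
      have := h m (Finset.mem_insert_self _ _)
      omega⟩
    rw [Finset.prod_insert hms, Finset.prod_insert hms, Finset.card_insert_of_notMem hms]
    rw [hk] at hcard ⊢
    simp only [Nat.add_sub_cancel] at hcard ⊢
    calc (k + 1) * ∏ p ∈ s, p ≤ (k + 1) * ((s.card + 1) * ∏ p ∈ s, (p - 1)) :=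
          Nat.mul_le_mul_left _ h1
      _ = ((k + 1) * (s.card + 1)) * ∏ p ∈ s, (p - 1) := by ring
      _ ≤ ((s.card + 1 + 1) * k) * ∏ p ∈ s, (p - 1) := by
        apply Nat.mul_le_mul_right
        nlinarith
      _ = _ := by ring

theorem totient_bound {b : ℕ} (hb : 1 ≤ b) :
    (b : ℝ) ≤ Nat.totient b * (2 * (1 + Real.log b)) := by
  have hφ : 0 < Nat.totient b := Nat.totient_pos.2 hb
  have hφR : (0 : ℝ) < Nat.totient b := by exact_mod_cast hφ
  have h1 := Nat.totient_mul_prod_primeFactors b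
  have h2 := prod_le_card b.primeFactors fun p hp => (Nat.prime_of_mem_primeFactors hp).two_le
  have hpos : 0 < ∏ p ∈ b.primeFactors, (p - 1) := by
    apply Finset.prod_pos
    intro p hp
    have := (Nat.prime_of_mem_primeFactors hp).two_le
    omega
  have h3 : b ≤ Nat.totient b * (b.primeFactors.card + 1) := by
    apply Nat.le_of_mul_le_mul_right _ hpos
    rw [← h1, mul_assoc]
    exact Nat.mul_le_mul_left _ h2
  have h4 : 2 ^ b.primeFactors.card ≤ b := by
    refine le_trans ?_ (Nat.le_of_dvd hb (Nat.prod_primeFactors_dvd b))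
    exact Finset.pow_card_le_prod _ _ _ fun p hp => (Nat.prime_of_mem_primeFactors hp).two_le
  have h5 : (b.primeFactors.card : ℝ) * Real.log 2 ≤ Real.log b := by
    rw [← Real.log_pow]
    apply Real.log_le_log (by positivity)
    exact_mod_cast h4
  have h6 := Real.log_two_gt_d9
  have hc : (0 : ℝ) ≤ b.primeFactors.card := Nat.cast_nonneg _
  have h7 : (b : ℝ) ≤ Nat.totient b * ((b.primeFactors.card : ℝ) + 1) := by exact_mod_cast h3
  have h8 : (b.primeFactors.card : ℝ) + 1 ≤ 2 * (1 + Real.log b) := by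
    nlinarith
  exact h7.trans (mul_le_mul_of_nonneg_left h8 hφR.le)

/-- the Pólya–Vinogradov bound for the half sum -/
theorem S_le (p : ℕ) (h3 : p % 4 = 3) : |((CFP.S p : ℤ) : ℝ)| ≤ 4 * √(p : ℝ) * (1 + Real.log p) := by
  have hNZ : NeZero p := ⟨by omega⟩
  obtain ⟨h, hh⟩ : ∃ h, p = 2 * h + 1 := ⟨p / 2, by omega⟩
  have h1 := Pool.Agent.H38R2.CG.PVh.sum_le p (Pool.Agent.H379R2.W.jchar p) (by omega)
    (CFP.jchar_ne_one p h3) h
  have h2 : ∑ n ∈ Finset.Icc 1 h, Pool.Agent.H379R2.W.jchar p (n : ZMod p) =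
      ((CFP.S p : ℤ) : ℂ) := by
    rw [CFP.S_range p h hh (by omega)]
    rw [Finset.range_eq_Ico, Finset.sum_Ico_add' (fun s : ℕ => jacobiSym (s : ℤ) p) 0 h 1]
    push_cast
    apply Finset.sum_congr
    · ext x
      rw [Finset.mem_Icc, Finset.mem_Ico]
      omega
    · intro x _
      rw [Pool.Agent.H379R2.W.jchar_apply]
  rw [h2] at h1
  have h4 : ‖((CFP.S p : ℤ) : ℂ)‖ = |((CFP.S p : ℤ) : ℝ)| := by
    rw [Complex.norm_intCast]
  rw [h4] at h1
  exact h1

theorem diff_le (p : ℕ) (hodd : Odd p) (hp : 1 < p) :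
    |(Nbar p : ℝ) - (N p : ℝ)| ≤ 8 * √(p : ℝ) * (1 + Real.log p) := by
  have h1 := CFP.sub_card p hodd hp
  rw [← N_eq, ← Nbar_eq] at h1
  have h2 : ((Nbar p : ℝ) - (N p : ℝ)) = (((1 - jacobiSym (-1) p) * CFP.S p : ℤ) : ℝ) := by
    rw [← h1]
    push_cast
    ring
  have hlog : 0 ≤ Real.log p := Real.log_nonneg (by exact_mod_cast hp.le)
  rw [h2]
  rcases Nat.odd_mod_four_iff.1 (Nat.odd_iff.1 hodd) with h | h
  · rw [jacobiSym.at_neg_one hodd, ZMod.χ₄_nat_one_mod_four h]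
    norm_num
    positivity
  · rw [CFP.jacobi_neg_one p h]
    push_cast
    rw [abs_mul]
    have := S_le p h
    have h5 : |((1 : ℝ) - -1)| = 2 := by norm_num
    norm_num
    linarith

theorem sum_eq (p : ℕ) (hp : 1 < p) : (Nbar p : ℝ) + (N p : ℝ) = p.totient := by
  have h1 := CFP.add_card p hp
  rw [← N_eq, ← Nbar_eq] at h1
  exact_mod_cast h1

theorem log_sq_le (x : ℝ) (hx : 1 ≤ x) : (1 + Real.log x) ^ 2 ≤ 81 * √√x := by
  have h0 : 0 < x := by linarith
  have h1 : √√√x ^ 8 = x := by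
    have e1 : √√√x ^ 8 = ((√√√x ^ 2) ^ 2) ^ 2 := by ring
    rw [e1, Real.sq_sqrt (by positivity), Real.sq_sqrt (by positivity), Real.sq_sqrt h0.le]
  have h2 : Real.log x ≤ 8 * √√√x := by
    conv_lhs => rw [← h1]
    rw [Real.log_pow]
    have : Real.log √√√x ≤ √√√x := (Real.log_le_sub_one_of_pos (by positivity)).trans (by linarith)
    push_cast
    linarith
  have h3 : 1 ≤ √√√x := by
    rw [Real.one_le_sqrt, Real.one_le_sqrt, Real.one_le_sqrt]
    exact hx
  have h4 : 0 ≤ Real.log x := Real.log_nonneg hx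
  have h5 : √√√x ^ 2 = √√x := Real.sq_sqrt (by positivity)
  calc (1 + Real.log x) ^ 2 ≤ (9 * √√√x) ^ 2 := by
        apply pow_le_pow_left₀ (by linarith)
        linarith
    _ = 81 * √√x := by rw [mul_pow, h5]; norm_num

/-- **Q1 (Rotkiewicz's question).** The ratio tends to `1`. -/
theorem result :
    (∀ p n : ℕ, 0 < n → n < p → ∃! l, IsExp p n l) ∧
    (∀ p : ℕ, Odd p → 1 < p → |(Nbar p : ℝ) - (N p : ℝ)| ≤ 8 * √(p : ℝ) * (1 + Real.log p)) ∧
    (∀ ε : ℝ, 0 < ε → ∃ P : ℕ, ∀ p : ℕ, Odd p → P ≤ p →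
      0 < Nbar p ∧ |(N p : ℝ) / (Nbar p : ℝ) - 1| < ε) := by
  refine ⟨?_, diff_le, ?_⟩
  · intro p n h0 h1
    obtain ⟨l, hl, hu⟩ := CFP.existsUnique p n h0 h1
    exact ⟨l, (isExp_eq p n l).2 hl, fun l' hl' => hu l' ((isExp_eq p n l').1 hl')⟩
  · intro ε hε
    set δ : ℝ := min (1 / 2) (ε / 5) with hδ
    have hδ0 : 0 < δ := by positivity
    have hδ1 : δ ≤ 1 / 2 := min_le_left _ _
    have hδ2 : δ ≤ ε / 5 := min_le_right _ _
    obtain ⟨P, hP⟩ := exists_nat_ge ((1296 / δ) ^ 4)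
    refine ⟨P + 2, ?_⟩
    intro p hodd hpP
    have hp1 : 1 < p := by omega
    have hpR : (1 : ℝ) ≤ p := by exact_mod_cast hp1.le
    have hp0 : (0 : ℝ) < p := by linarith
    have hlog : 0 ≤ Real.log p := Real.log_nonneg hpR
    have h1 := diff_le p hodd hp1
    have h2 := sum_eq p hp1
    have h3 := totient_bound (b := p) (by omega)
    have h4 := log_sq_le p hpR
    -- `√√p ≥ 1296 / δ`
    have h5 : 1296 / δ ≤ √√(p : ℝ) := by
      apply Real.le_sqrt_of_sq_le
      apply Real.le_sqrt_of_sq_le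
      have e1 : ((1296 / δ) ^ 2) ^ 2 = (1296 / δ) ^ 4 := by ring
      rw [e1]
      have : (P : ℝ) ≤ p := by exact_mod_cast (by omega : P ≤ p)
      linarith
    have h6 : √√(p : ℝ) ^ 2 = √(p : ℝ) := Real.sq_sqrt (by positivity)
    have h7 : √(p : ℝ) ^ 2 = p := Real.sq_sqrt hp0.le
    have h8 : 16 * (1 + Real.log p) ^ 2 ≤ δ * √(p : ℝ) := by
      have e1 : 1296 ≤ δ * √√(p : ℝ) := by
        rw [div_le_iff₀ hδ0] at h5
        linarith
      have e2 : 0 ≤ √√(p : ℝ) := Real.sqrt_nonneg _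
      calc 16 * (1 + Real.log p) ^ 2 ≤ 16 * (81 * √√(p : ℝ)) := by linarith
        _ = 1296 * √√(p : ℝ) := by ring
        _ ≤ (δ * √√(p : ℝ)) * √√(p : ℝ) := mul_le_mul_of_nonneg_right e1 e2
        _ = δ * √√(p : ℝ) ^ 2 := by ring
        _ = δ * √(p : ℝ) := by rw [h6]
    have hφ : (0 : ℝ) ≤ p.totient := Nat.cast_nonneg _
    have h9 : 8 * √(p : ℝ) * (1 + Real.log p) ≤ δ * p.totient := by
      have e1 : 0 < 2 * (1 + Real.log p) := by linarith
      have e2 : 8 * √(p : ℝ) * (1 + Real.log p) * (2 * (1 + Real.log p)) ≤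
          δ * p.totient * (2 * (1 + Real.log p)) := by
        calc _ = √(p : ℝ) * (16 * (1 + Real.log p) ^ 2) := by ring
          _ ≤ √(p : ℝ) * (δ * √(p : ℝ)) := mul_le_mul_of_nonneg_left h8 (Real.sqrt_nonneg _)
          _ = δ * (√(p : ℝ) ^ 2) := by ring
          _ = δ * p := by rw [h7]
          _ ≤ δ * (p.totient * (2 * (1 + Real.log p))) := mul_le_mul_of_nonneg_left h3 hδ0.le
          _ = _ := by ring
      exact le_of_mul_le_mul_right e2 e1
    have hφ0 : (0 : ℝ) < p.totient := by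
      have := Nat.totient_pos.2 (by omega : 0 < p)
      exact_mod_cast this
    have h10 : |(Nbar p : ℝ) - (N p : ℝ)| ≤ δ * p.totient := h1.trans h9
    have h11 := abs_le.1 h10
    have h12 : (p.totient : ℝ) / 4 ≤ Nbar p := by nlinarith
    have h13 : (0 : ℝ) < Nbar p := by linarith
    refine ⟨by exact_mod_cast h13, ?_⟩
    have h14 : (N p : ℝ) / (Nbar p : ℝ) - 1 = - (((Nbar p : ℝ) - (N p : ℝ)) / Nbar p) := by
      field_simp
      ring
    rw [h14, abs_neg, abs_div, abs_of_pos h13, div_lt_iff₀ h13]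
    calc |(Nbar p : ℝ) - (N p : ℝ)| ≤ δ * p.totient := h10
      _ ≤ (ε / 5) * p.totient := mul_le_mul_of_nonneg_right hδ2 hφ
      _ ≤ (ε / 5) * (4 * Nbar p) := mul_le_mul_of_nonneg_left (by linarith) (by positivity)
      _ < ε * Nbar p := by nlinarith

end Pool.Agent.Results.MP_7c82b6_nt.RatioTendsToOne
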